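import Mathlib
import Pool.Agent.H892.ZL.Stm

set_option autoImplicit false

/-!
# Regularity at smooth points: the homogeneous version from the affine version
-/

namespace Pool.Agent.H282.ZL

open MvPolynomial Matrix Pool.Agent.H892.ZL

namespace LOCx

theorem aeval_hom {E : Type} [CommRing E] [Algebra ℂ E] {A : MvPolynomial (Fin 6) ℂ} {n : ℕ}
    (hA : A.IsHomogeneous n) (t : E) (P : Fin 6 → E) :
    aeval (t • P) A = t ^ n * aeval P A := by
  rw [aeval_def, aeval_def, eval₂_eq', eval₂_eq', Finset.mul_sum]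
  refine Finset.sum_congr rfl fun m hm => ?_
  have h1 : ∑ i, m i = n := by
    have h2 := hA (mem_support_iff.1 hm)
    rw [Finsupp.weight_apply, Finsupp.sum_fintype _ _ (fun i => by simp)] at h2
    simpa using h2
  have h3 : ∏ i, (t • P) i ^ m i = t ^ n * ∏ i, P i ^ m i := by
    rw [← h1, ← Finset.prod_pow_eq_pow_sum, ← Finset.prod_mul_distrib]
    refine Finset.prod_congr rfl fun i _ => ?_
    rw [Pi.smul_apply, smul_eq_mul, mul_pow]
  rw [h3]
  ring

theorem aeval_eval (v : Fin 6 → ℂ) (A : MvPolynomial (Fin 6) ℂ) : aeval v A = eval v A := by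
  rw [aeval_def, Algebra.algebraMap_self]
  rfl

theorem eval_hom {A : MvPolynomial (Fin 6) ℂ} {n : ℕ} (hA : A.IsHomogeneous n) (t : ℂ)
    (v : Fin 6 → ℂ) : eval (t • v) A = t ^ n * eval v A := by
  have h := aeval_hom hA t v
  rwa [aeval_eval, aeval_eval] at h

theorem Gp_hom : Gp.IsHomogeneous 2 := by
  unfold Gp
  refine ((IsHomogeneous.mul (m := 1) (n := 1) (isHomogeneous_X ℂ _) (isHomogeneous_X ℂ _)).sub
    (IsHomogeneous.mul (m := 1) (n := 1) (isHomogeneous_X ℂ _) (isHomogeneous_X ℂ _))).add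
    (IsHomogeneous.mul (m := 1) (n := 1) (isHomogeneous_X ℂ _) (isHomogeneous_X ℂ _))

theorem grad_hom {K : MvPolynomial (Fin 6) ℂ} {n : ℕ} (hK : K.IsHomogeneous n) (t : ℂ)
    (v : Fin 6 → ℂ) : grad K (t • v) = t ^ (n - 1) • grad K v := by
  funext j
  show aeval (t • v) (pderiv j K) = t ^ (n - 1) * aeval v (pderiv j K)
  exact aeval_hom hK.pderiv t v

theorem D6_scale (L : Matrix (Fin 4) (Fin 6) ℂ) (a b : Fin 6 → ℂ) (s t : ℂ) :
    D6 L ![s • a, t • b] = s * t * D6 L ![a, b] := by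
  unfold D6
  have h := Matrix.det_mul_column (Sum.elim (fun _ : Fin 4 => (1 : ℂ)) ![s, t])
    ((Matrix.fromRows L (![a, b] : Matrix (Fin 2) (Fin 6) ℂ)).submatrix id
      (finSumFinEquiv (m := 4) (n := 2)))
  rw [Fintype.prod_sum_type] at h
  simp only [Sum.elim_inl, Sum.elim_inr, Finset.prod_const_one, one_mul, Fin.prod_univ_two,
    Matrix.cons_val_zero, Matrix.cons_val_one] at h
  rw [← h]
  refine congrArg Matrix.det ?_
  ext i j
  rcases i with i | i
  · simp
  · fin_cases i <;> simp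

end LOCx

open LOCx in
theorem t_LOC (h1 : S_LOCA) (h2 : S_HOMOG) (h3 : S_SC) : S_LOC := by
  intro E _ _ δ K K' P R w w' v d e f g hK hK' hW hW' hw hsp hf hg hfR hR hgP hfv hgv hgfv hv hsm
  obtain ⟨M, hM⟩ : ∃ M, v M ≠ 0 := by
    by_contra hcon
    push Not at hcon
    exact hv (funext hcon)
  obtain ⟨M', hM'⟩ := hfv
  have hPM : P M ≠ 0 := by
    intro h0
    have h4 := hsp 1 (X M) (isHomogeneous_X ℂ M) (by rw [aeval_X]; exact h0)
    rw [eval_X] at h4
    exact hM h4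
  have hfP : aeval P (f M') ≠ 0 := fun h0 => hM' (hsp d _ (hf M') h0)
  have hRM' : R M' ≠ 0 := by
    intro h0
    refine hR (funext fun j => ?_)
    have h4 : aeval P (f M') * R j = aeval P (f j) * R M' := hfR M' j
    rw [h0, mul_zero] at h4
    exact (mul_eq_zero.1 h4).resolve_left hfP
  -- the normalised points
  obtain ⟨t, ht⟩ : ∃ t, t = (P M)⁻¹ := ⟨_, rfl⟩
  obtain ⟨t', ht'⟩ : ∃ t', t' = (R M')⁻¹ := ⟨_, rfl⟩
  obtain ⟨s, hs⟩ : ∃ s, s = (v M)⁻¹ := ⟨_, rfl⟩
  obtain ⟨s', hs'⟩ : ∃ s', s' = (eval v (f M'))⁻¹ := ⟨_, rfl⟩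
  have ht0 : t ≠ 0 := by rw [ht]; exact inv_ne_zero hPM
  have ht0' : t' ≠ 0 := by rw [ht']; exact inv_ne_zero hRM'
  have hs0 : s ≠ 0 := by rw [hs]; exact inv_ne_zero hM
  have hs0' : s' ≠ 0 := by rw [hs']; exact inv_ne_zero hM'
  have htP : t * P M = 1 := by rw [ht]; exact inv_mul_cancel₀ hPM
  have htR : t' * R M' = 1 := by rw [ht']; exact inv_mul_cancel₀ hRM'
  have hsv : s * v M = 1 := by rw [hs]; exact inv_mul_cancel₀ hM
  have hsv' : s' * eval v (f M') = 1 := by rw [hs']; exact inv_mul_cancel₀ hM'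
  have hPdiv : (fun i => P i / P M) = t • P := by
    funext i
    rw [Pi.smul_apply, smul_eq_mul, ht, div_eq_inv_mul]
  have hvdiv : (fun i => v i / v M) = s • v := by
    funext i
    rw [Pi.smul_apply, smul_eq_mul, hs, div_eq_inv_mul]
  have ha : ∀ A : MvPolynomial (Fin 6) ℂ, aeval (t • P) A = 0 → eval (s • v) A = 0 := by
    intro A hA
    obtain ⟨H, hH, hH2⟩ := h2 M A A.totalDegree le_rfl
    have h4 := hH2 E P hPM
    rw [hPdiv, hA, mul_zero] at h4
    have h5 := hsp _ H hH h4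
    have h6 := hH2 ℂ v hM
    rw [aeval_eval, h5, hvdiv, aeval_eval] at h6
    exact (mul_eq_zero.1 h6.symm).resolve_left (pow_ne_zero _ hM)
  have hb1 : eval (s • v) (f M') ≠ 0 := by
    rw [eval_hom (hf M')]
    exact mul_ne_zero (pow_ne_zero _ hs0) hM'
  have hb2 : ∀ j, (t' • R) j * aeval (t • P) (f M') = aeval (t • P) (f j) := by
    intro j
    have h4 : aeval P (f M') * R j = aeval P (f j) * R M' := hfR M' j
    rw [aeval_hom (hf M'), aeval_hom (hf j), Pi.smul_apply, smul_eq_mul]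
    linear_combination (t' * t ^ d) * h4 + (t ^ d * aeval P (f j)) * htR
  have hb3 : ∀ j, (s' • fun i => eval v (f i)) j * eval (s • v) (f M') = eval (s • v) (f j) := by
    intro j
    rw [eval_hom (hf M'), eval_hom (hf j), Pi.smul_apply, smul_eq_mul]
    linear_combination (s ^ d * eval v (f j)) * hsv'
  have hgM : eval (fun j => eval v (f j)) (g M) ≠ 0 := by
    intro h0
    obtain ⟨i, hi⟩ := hgv
    have h4 : eval (fun j => eval v (f j)) (g i) * v M =
      eval (fun j => eval v (f j)) (g M) * v i := hgfv i M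
    rw [h0, zero_mul] at h4
    exact hi ((mul_eq_zero.1 h4).resolve_right hM)
  have hc1 : eval (s' • fun i => eval v (f i)) (g M) ≠ 0 := by
    rw [eval_hom (hg M)]
    exact mul_ne_zero (pow_ne_zero _ hs0') hgM
  have hc2 : ∀ j, (t • P) j * aeval (t' • R) (g M) = aeval (t' • R) (g j) := by
    intro j
    have h4 : aeval R (g M) * P j = aeval R (g j) * P M := hgP M j
    rw [aeval_hom (hg M), aeval_hom (hg j), Pi.smul_apply, smul_eq_mul]
    linear_combination (t * t' ^ e) * h4 + (t' ^ e * aeval R (g j)) * htP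
  have hW1 := h3 E δ K P w t hK hW ht0
  have hW2 := h3 E δ K' R w' t' hK' hW' ht0'
  obtain ⟨L, hL⟩ := hsm
  have hd : D6 L (YY K (s • v)) ≠ 0 := by
    have h4 : YY K (s • v) = ![s ^ (2 - 1) • grad Gp v, s ^ (3 - 1) • grad K v] := by
      unfold YY
      rw [grad_hom Gp_hom, grad_hom hK]
    rw [h4, D6_scale]
    exact mul_ne_zero (mul_ne_zero (pow_ne_zero _ hs0) (pow_ne_zero _ hs0)) hL
  have hp1 : (t • P) M = 1 := by rw [Pi.smul_apply, smul_eq_mul]; exact htP
  have hq1 : (t' • R) M' = 1 := by rw [Pi.smul_apply, smul_eq_mul]; exact htR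
  obtain ⟨k1, k2, k3⟩ := h1 E δ K K' (t • P) (t' • R) (t * w) (t' * w') (s • v)
    (s' • fun i => eval v (f i)) M M' f g L hp1 hq1 hW1 hW2 (mul_ne_zero ht0 hw) ha hb1 hb2 hb3
    hc1 hc2 hd
  have hw' : w' ≠ 0 := fun h0 => k1 (by rw [h0, mul_zero])
  refine ⟨hw', fun I => ?_⟩
  obtain ⟨A₁, B₁, a1, a2, a3⟩ := k2
  obtain ⟨A₂, B₂, b1, b2, b3⟩ := k3 I
  obtain ⟨n, hn⟩ : ∃ n, n = max (A₁ * A₂).totalDegree (B₁ * B₂).totalDegree := ⟨_, rfl⟩
  obtain ⟨HA, hA1, hA2⟩ := h2 M (A₁ * A₂) n (by rw [hn]; exact le_max_left _ _)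
  obtain ⟨HB, hB1, hB2⟩ := h2 M (B₁ * B₂) n (by rw [hn]; exact le_max_right _ _)
  refine ⟨n, X M * HA, HB, ?_, hB1, ?_, ?_⟩
  · have h4 := (isHomogeneous_X ℂ M).mul hA1
    rwa [add_comm] at h4
  · have h4 := hB2 ℂ v hM
    rw [aeval_eval, hvdiv, aeval_eval] at h4
    rw [h4, map_mul]
    exact mul_ne_zero (pow_ne_zero _ hM) (mul_ne_zero a1 b1)
  · have h4 := hA2 E P hPM
    have h5 := hB2 E P hPM
    rw [hPdiv, map_mul] at h4 h5
    rw [map_mul, aeval_X, h4, h5]
    have h6 : w / w' = t' * P M * (t * w / (t' * w')) := by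
      rw [← mul_div_assoc, div_eq_div_iff hw' (mul_ne_zero ht0' hw')]
      linear_combination (-(w * t' * w')) * htP
    have h7 : R I = R M' * (t' • R) I := by
      rw [Pi.smul_apply, smul_eq_mul]
      linear_combination (-R I) * htR
    rw [h6, h7]
    linear_combination (P M * P M ^ n * aeval (t • P) A₁ * aeval (t • P) A₂ * 0) * htR +
      (t' * P M * R M' * (t' • R) I * P M ^ n * aeval (t • P) B₂) * a3 +
      (t' * P M * R M' * P M ^ n * aeval (t • P) A₁) * b3 +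
      (P M * P M ^ n * aeval (t • P) A₁ * aeval (t • P) A₂) * htR

end Pool.Agent.H282.ZL
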